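import Pool.Agent.helper96.SV.SpecA

/-!
# Project sva: (MP_b5a345_ag), module PFR (helper77)
-/

set_option autoImplicit false
set_option linter.unusedSectionVars false

namespace Pool.Agent.SVA

open Polynomial Module

theorem PFR : PFR_stmt := by
  classical
  intro J _ p a₀ b₀ q a b hq h0
  obtain ⟨S, hS⟩ : ∃ S : ℂ[X], S = ∑ j, (C (a j) * (C (q j) - X) + C (b j)) *
      ∏ i ∈ Finset.univ.erase j, (C (q i) - X) ^ 2 := ⟨_, rfl⟩
  obtain ⟨Q, hQ⟩ : ∃ Q : ℂ[X], Q = ∏ j, (C (q j) - X) ^ 2 := ⟨_, rfl⟩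
  obtain ⟨G, hG⟩ : ∃ G : ℂ[X], G = (C p - X) ^ 2 * S + (C a₀ * (C p - X) + C b₀) * Q := ⟨_, rfl⟩
  have hQp : Q.eval p ≠ 0 := by
    rw [hQ, eval_prod]
    refine Finset.prod_ne_zero_iff.2 fun j _ => ?_
    rw [eval_pow, eval_sub, eval_C, eval_X]
    exact pow_ne_zero _ (sub_ne_zero.2 (hq j))
  have hG0 : G ≠ 0 := by
    intro h
    by_cases hb : b₀ = 0
    · have ha : a₀ ≠ 0 := by
        rcases h0 with h1 | h1
        · exact h1
        · exact absurd hb h1
      have h1 : G = (C p - X) * ((C p - X) * S + C a₀ * Q) := by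
        rw [hG, hb, C_0]
        ring
      rw [h] at h1
      rcases mul_eq_zero.1 h1.symm with h2 | h2
      · have h3 := congrArg (fun P => P.eval (p + 1)) h2
        simp at h3
      · have h3 := congrArg (fun P => P.eval p) h2
        simp only [eval_add, eval_mul, eval_sub, eval_C, eval_X, sub_self, zero_mul, zero_add,
          eval_zero] at h3
        exact mul_ne_zero ha hQp h3
    · have h3 := congrArg (fun P => P.eval p) h
      rw [hG] at h3
      simp only [eval_add, eval_mul, eval_sub, eval_C, eval_X, eval_pow, sub_self, ne_eq,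
        OfNat.ofNat_ne_zero, not_false_eq_true, zero_pow, zero_mul, mul_zero, zero_add,
        eval_zero] at h3
      exact mul_ne_zero hb hQp h3
  refine ((Set.finite_singleton p).union ((Set.finite_range q).union
    (Polynomial.finite_setOf_isRoot hG0))).subset ?_
  intro t ht
  rw [Set.mem_setOf_eq] at ht
  by_cases htp : t = p
  · exact Or.inl htp
  by_cases htq : t ∈ Set.range q
  · exact Or.inr (Or.inl htq)
  refine Or.inr (Or.inr ?_)
  have h1 : p - t ≠ 0 := sub_ne_zero.2 (Ne.symm htp)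
  have h2 : ∀ j, q j - t ≠ 0 := fun j => sub_ne_zero.2 fun h => htq ⟨j, h⟩
  have hQt : Q.eval t = ∏ j, (q j - t) ^ 2 := by
    rw [hQ, eval_prod]
    simp
  have hSt : S.eval t = (∑ j, (a j / (q j - t) + b j / (q j - t) ^ 2)) * ∏ j, (q j - t) ^ 2 := by
    rw [hS, eval_finset_sum, Finset.sum_mul]
    refine Finset.sum_congr rfl fun j _ => ?_
    rw [eval_mul, eval_prod]
    simp only [eval_add, eval_mul, eval_sub, eval_C, eval_X, eval_pow]
    rw [← Finset.mul_prod_erase Finset.univ (fun i => (q i - t) ^ 2) (Finset.mem_univ j)]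
    have := h2 j
    field_simp
  rw [Set.mem_setOf_eq, IsRoot.def, hG]
  simp only [eval_add, eval_mul, eval_sub, eval_C, eval_X, eval_pow]
  rw [hSt, hQt]
  have h4 : (p - t) ^ 2 * ((∑ j, (a j / (q j - t) + b j / (q j - t) ^ 2)) * ∏ j, (q j - t) ^ 2) +
      (a₀ * (p - t) + b₀) * ∏ j, (q j - t) ^ 2 =
      (p - t) ^ 2 * (∏ j, (q j - t) ^ 2) * ((∑ j, (a j / (q j - t) + b j / (q j - t) ^ 2)) +
        (a₀ / (p - t) + b₀ / (p - t) ^ 2)) := by
    field_simp
  rw [h4, ht, mul_zero]

end Pool.Agent.SVA
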